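import Mathlib

set_option autoImplicit false

namespace Q41.CC

/-- The convex hull of the orbit `{x, T x, T² x, …}` of some vector `x` is dense. -/
def IsConvexCyclic {X : Type*} [NormedAddCommGroup X] [NormedSpace ℝ X] (T : X → X) : Prop :=
  ∃ x : X, Dense (convexHull ℝ (Set.range fun n : ℕ => T^[n] x))

end Q41.CC
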