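import Mathlib

set_option autoImplicit false
set_option synthInstance.maxHeartbeats 400000

/-!
# Biorthogonal systems with dense span, and diagonal operators
-/

namespace Q41.CC

open Filter Topology

section Sys

variable {𝕜 X : Type*} [RCLike 𝕜] [NormedAddCommGroup X] [NormedSpace 𝕜 X]

/-- A vector outside a finite dimensional subspace is separated from it by a functional. -/
theorem exists_functional [NormedSpace ℝ X] [IsScalarTower ℝ 𝕜 X] {n : ℕ} (v : Fin n → X) (x : X)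
    (hx : x ∉ Submodule.span 𝕜 (Set.range v)) :
    ∃ f : StrongDual 𝕜 X, f x = 1 ∧ ∀ k, f (v k) = 0 := by
  set V := Submodule.span 𝕜 (Set.range v) with hV
  have : FiniteDimensional 𝕜 V := FiniteDimensional.span_of_finite 𝕜 (Set.finite_range v)
  have hcl : IsClosed (V : Set X) := V.closed_of_finiteDimensional
  have hconv : Convex ℝ (V : Set X) := by
    intro a ha b hb s t _ _ _
    have h1 : s • a = ((s : 𝕜)) • a := by rw [← RCLike.real_smul_eq_coe_smul (K := 𝕜)]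
    have h2 : t • b = ((t : 𝕜)) • b := by rw [← RCLike.real_smul_eq_coe_smul (K := 𝕜)]
    rw [h1, h2]
    exact V.add_mem (V.smul_mem _ ha) (V.smul_mem _ hb)
  obtain ⟨f, u, hfx, hfV⟩ := RCLike.geometric_hahn_banach_point_closed (𝕜 := 𝕜) hconv hcl hx
  have hu0 : u < 0 := by
    have := hfV 0 V.zero_mem
    simpa using this
  have hfx0 : f x ≠ 0 := by
    intro h
    rw [h, map_zero] at hfx
    linarith
  have hzero : ∀ b ∈ V, f b = 0 := by
    intro b hb
    by_contra hne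
    have h1 := hfV (((u / (‖f b‖ ^ 2) * 2 : ℝ) : 𝕜) • (starRingEnd 𝕜 (f b)) • b)
      (V.smul_mem _ (V.smul_mem _ hb))
    rw [f.map_smul, f.map_smul, smul_eq_mul, smul_eq_mul, RCLike.conj_mul] at h1
    have h2 : (((u / (‖f b‖ ^ 2) * 2 : ℝ) : 𝕜) * ((‖f b‖ : 𝕜)) ^ 2) = ((u * 2 : ℝ) : 𝕜) := by
      have : ((‖f b‖ : 𝕜)) ≠ 0 := by
        rw [Ne, RCLike.ofReal_eq_zero]; exact norm_ne_zero_iff.2 hne
      push_cast
      field_simp
    rw [h2, RCLike.ofReal_re] at h1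
    linarith
  refine ⟨(f x)⁻¹ • f, ?_, fun k => ?_⟩
  · rw [smul_apply, smul_eq_mul, inv_mul_cancel₀ hfx0]
  · rw [smul_apply, hzero _ (Submodule.subset_span ⟨k, rfl⟩), smul_zero]

open Classical in
/-- The biorthogonal system obtained from a sequence `y`. -/
noncomputable def sys (y : ℕ → X) : ℕ → X × StrongDual 𝕜 X
  | n =>
    (y n - ∑ k : Fin n, (sys y k).2 (y n) • (sys y k).1,
      if h : ∃ f : StrongDual 𝕜 X, f (y n - ∑ k : Fin n, (sys y k).2 (y n) • (sys y k).1) = 1 ∧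
        ∀ k : Fin n, f (sys y k).1 = 0 then h.choose else 0)
  decreasing_by all_goals exact k.2

theorem sys_fst (y : ℕ → X) (n : ℕ) : (sys (𝕜 := 𝕜) y n).1 =
    y n - ∑ k : Fin n, (sys (𝕜 := 𝕜) y k).2 (y n) • (sys (𝕜 := 𝕜) y k).1 := by
  rw [sys]

theorem sys_snd (y : ℕ → X) (n : ℕ) :
    (∃ f : StrongDual 𝕜 X, f (sys (𝕜 := 𝕜) y n).1 = 1 ∧ ∀ k : Fin n, f (sys (𝕜 := 𝕜) y k).1 = 0) →
    (sys (𝕜 := 𝕜) y n).2 (sys (𝕜 := 𝕜) y n).1 = 1 ∧
      ∀ k : Fin n, (sys (𝕜 := 𝕜) y n).2 (sys (𝕜 := 𝕜) y k).1 = 0 := by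
  intro h
  have e : (sys (𝕜 := 𝕜) y n).2 = h.choose := by
    have h' := h
    rw [sys_fst] at h'
    have e2 : (sys (𝕜 := 𝕜) y n).2 = h'.choose := by
      rw [sys]
      simp only
      rw [dif_pos h']
    rw [e2]
    congr 1
    rw [sys_fst]
  rw [e]
  exact h.choose_spec

theorem sys_snd_zero (y : ℕ → X) (n : ℕ) (h : (sys (𝕜 := 𝕜) y n).1 = 0) :
    (sys (𝕜 := 𝕜) y n).2 = 0 := by
  have h0 := h
  rw [sys_fst] at h0
  rw [sys]
  simp only
  rw [dif_neg]
  rintro ⟨f, hf, -⟩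
  rw [h0, map_zero] at hf
  exact zero_ne_one hf

theorem sys_main [NormedSpace ℝ X] [IsScalarTower ℝ 𝕜 X] (y : ℕ → X) (n : ℕ) :
    (∀ m < n, (sys (𝕜 := 𝕜) y m).2 (sys (𝕜 := 𝕜) y n).1 = 0) ∧
    (∀ m < n, (sys (𝕜 := 𝕜) y n).2 (sys (𝕜 := 𝕜) y m).1 = 0) ∧
    ((sys (𝕜 := 𝕜) y n).1 ≠ 0 → (sys (𝕜 := 𝕜) y n).2 (sys (𝕜 := 𝕜) y n).1 = 1) := by
  induction n using Nat.strong_induction_on with
  | _ n ih =>
  have hA : ∀ m < n, (sys (𝕜 := 𝕜) y m).2 (sys (𝕜 := 𝕜) y n).1 = 0 := by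
    intro m hm
    rw [sys_fst, map_sub, map_sum]
    rw [Finset.sum_eq_single (⟨m, hm⟩ : Fin n)]
    · rw [map_smul, smul_eq_mul]
      simp only
      by_cases h0 : (sys (𝕜 := 𝕜) y m).1 = 0
      · rw [sys_snd_zero y m h0]; simp
      · rw [(ih m hm).2.2 h0, mul_one, sub_self]
    · intro k _ hk
      rw [map_smul, smul_eq_mul]
      have hkm : (k : ℕ) ≠ m := fun h => hk (Fin.ext h)
      rcases lt_or_gt_of_ne hkm with h | h
      · rw [(ih m hm).2.1 k h, mul_zero]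
      · rw [(ih k k.2).1 m h, mul_zero]
    · intro h
      exact absurd (Finset.mem_univ _) h
  by_cases h0 : (sys (𝕜 := 𝕜) y n).1 = 0
  · refine ⟨hA, fun m _ => ?_, fun h => absurd h0 h⟩
    rw [sys_snd_zero y n h0]
    rfl
  · have hnot : (sys (𝕜 := 𝕜) y n).1 ∉
        Submodule.span 𝕜 (Set.range fun k : Fin n => (sys (𝕜 := 𝕜) y k).1) := by
      intro hmem
      obtain ⟨c, hc⟩ := (Submodule.mem_span_range_iff_exists_fun 𝕜).1 hmem
      apply h0
      rw [← hc]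
      apply Finset.sum_eq_zero
      intro k _
      by_cases hk0 : (sys (𝕜 := 𝕜) y k).1 = 0
      · rw [hk0, smul_zero]
      · have h1 := hA k k.2
        rw [← hc, map_sum, Finset.sum_eq_single k] at h1
        · rw [map_smul, smul_eq_mul, (ih k k.2).2.2 hk0, mul_one] at h1
          rw [h1, zero_smul]
        · intro l _ hl
          rw [map_smul, smul_eq_mul]
          have hlk : (l : ℕ) ≠ k := fun h => hl (Fin.ext h)
          rcases lt_or_gt_of_ne hlk with h | h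
          · rw [(ih k k.2).2.1 l h, mul_zero]
          · rw [(ih l l.2).1 k h, mul_zero]
        · intro h
          exact absurd (Finset.mem_univ _) h
    obtain ⟨f, hf1, hf2⟩ := exists_functional (𝕜 := 𝕜) _ _ hnot
    have h2 := sys_snd (𝕜 := 𝕜) y n ⟨f, hf1, hf2⟩
    exact ⟨hA, fun m hm => h2.2 ⟨m, hm⟩, fun _ => h2.1⟩

/-- A separable space has a biorthogonal system with dense span (some of the vectors may
vanish). -/
theorem exists_sys [NormedSpace ℝ X] [IsScalarTower ℝ 𝕜 X] [TopologicalSpace.SeparableSpace X] :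
    ∃ (x : ℕ → X) (f : ℕ → StrongDual 𝕜 X), (∀ m n, m ≠ n → f m (x n) = 0) ∧
      (∀ n, x n ≠ 0 → f n (x n) = 1) ∧ (∀ n, x n = 0 → f n = 0) ∧
      ∀ φ : StrongDual 𝕜 X, (∀ n, φ (x n) = 0) → φ = 0 := by
  let y := TopologicalSpace.denseSeq X
  refine ⟨fun n => (sys (𝕜 := 𝕜) y n).1, fun n => (sys (𝕜 := 𝕜) y n).2, ?_, ?_, ?_, ?_⟩
  · intro m n hmn
    rcases lt_or_gt_of_ne hmn with h | h
    · exact (sys_main y n).1 m h
    · exact (sys_main y m).2.1 n h
  · intro n h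
    exact (sys_main y n).2.2 h
  · intro n h
    exact sys_snd_zero y n h
  · intro φ hφ
    have h1 : ∀ n, φ (y n) = 0 := by
      intro n
      have h2 := hφ n
      simp only at h2
      rw [sys_fst, map_sub, map_sum] at h2
      rw [Finset.sum_eq_zero, sub_zero] at h2
      · exact h2
      · intro k _
        rw [map_smul, hφ k, smul_zero]
    ext z
    have hd : DenseRange y := TopologicalSpace.denseRange_denseSeq X
    have h3 : (φ : X → 𝕜) = fun _ => 0 :=
      hd.equalizer φ.continuous continuous_const (funext h1)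
    rw [h3]
    rfl

end Sys

end Q41.CC
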