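import Mathlib
import Pool.Agent.Q41.CC.Defs
import Pool.Agent.Q41.CC.Sys

set_option autoImplicit false
set_option synthInstance.maxHeartbeats 400000

namespace Q41.CC

open Filter Topology

section Diag

variable {𝕜 X : Type*} [RCLike 𝕜] [NormedAddCommGroup X] [NormedSpace 𝕜 X] [NormedSpace ℝ X]
  [IsScalarTower ℝ 𝕜 X] [CompleteSpace X]

/-- Positive weights `ε n`, strictly decreasing, with `ε n * M n ≤ 4⁻ⁿ⁻¹`. -/
theorem exists_weights (M : ℕ → ℝ) (hM : ∀ n, 0 ≤ M n) :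
    ∃ ε : ℕ → ℝ, (∀ n, 0 < ε n) ∧ StrictAnti ε ∧ ∀ n, ε n * M n ≤ (1 / 4) ^ n := by
  let ε : ℕ → ℝ := fun n => ∏ k ∈ Finset.range (n + 1), (4 * (1 + M k))⁻¹
  have hpos : ∀ k, 0 < (4 * (1 + M k))⁻¹ := fun k => by have := hM k; positivity
  have hle : ∀ k, (4 * (1 + M k))⁻¹ ≤ 1 / 4 := by
    intro k
    have := hM k
    rw [one_div]
    apply inv_anti₀ (by norm_num)
    linarith
  have hε : ∀ n, 0 < ε n := fun n => Finset.prod_pos fun k _ => hpos k
  refine ⟨ε, hε, ?_, ?_⟩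
  · apply strictAnti_nat_of_succ_lt
    intro n
    have h1 : ε (n + 1) = ε n * (4 * (1 + M (n + 1)))⁻¹ := Finset.prod_range_succ _ _
    rw [h1]
    have := hle (n + 1)
    nlinarith [hε n]
  · intro n
    have h1 : ε n = (∏ k ∈ Finset.range n, (4 * (1 + M k))⁻¹) * (4 * (1 + M n))⁻¹ :=
      Finset.prod_range_succ _ _
    have h2 : (∏ k ∈ Finset.range n, (4 * (1 + M k))⁻¹) ≤ (1 / 4) ^ n := by
      calc (∏ k ∈ Finset.range n, (4 * (1 + M k))⁻¹) ≤ ∏ k ∈ Finset.range n, (1 / 4 : ℝ) :=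
            Finset.prod_le_prod (fun k _ => (hpos k).le) fun k _ => hle k
        _ = (1 / 4) ^ n := by simp
    have h3 : (4 * (1 + M n))⁻¹ * M n ≤ 1 := by
      have := hM n
      rw [inv_mul_le_iff₀ (by positivity)]
      linarith
    have h4 : 0 ≤ ∏ k ∈ Finset.range n, (4 * (1 + M k))⁻¹ :=
      Finset.prod_nonneg fun k _ => (hpos k).le
    rw [h1, mul_assoc]
    calc (∏ k ∈ Finset.range n, (4 * (1 + M k))⁻¹) * ((4 * (1 + M n))⁻¹ * M n)
        ≤ (∏ k ∈ Finset.range n, (4 * (1 + M k))⁻¹) * 1 := mul_le_mul_of_nonneg_left h3 h4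
      _ ≤ _ := by rw [mul_one]; exact h2

/-- A diagonal operator with eigenvalues `ι (2 + ε n)`. -/
theorem exists_operator (ι : 𝕜) (x : ℕ → X) (f : ℕ → StrongDual 𝕜 X)
    (hoff : ∀ m n, m ≠ n → f m (x n) = 0) (hon : ∀ n, x n ≠ 0 → f n (x n) = 1)
    (hz : ∀ n, x n = 0 → f n = 0) :
    ∃ (S : X →L[𝕜] X) (r : ℕ → ℝ), (∀ n, 2 < r n) ∧ StrictAnti r ∧
      (∀ n, S (x n) = (ι * (r n : 𝕜)) • x n) ∧ ∀ n z, f n (S z) = ι * (r n : 𝕜) * f n z := by
  obtain ⟨ε, hε, hanti, hle⟩ := exists_weights (fun n => ‖f n‖ * ‖x n‖)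
    (fun n => mul_nonneg (norm_nonneg _) (norm_nonneg _))
  let u : ℕ → X →L[𝕜] X := fun n => ((ε n : ℝ) : 𝕜) • (f n).smulRight (x n)
  have hu : Summable u := by
    apply Summable.of_norm_bounded (g := fun n => (1 / 4 : ℝ) ^ n)
      (summable_geometric_of_lt_one (by norm_num) (by norm_num))
    intro n
    simp only [u]
    rw [norm_smul, ContinuousLinearMap.norm_smulRight_apply, RCLike.norm_ofReal, abs_of_pos (hε n)]
    exact hle n
  let D : X →L[𝕜] X := ∑' n, u n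
  have hD : ∀ z, HasSum (fun n => (((ε n : ℝ) : 𝕜) * f n z) • x n) (D z) := by
    intro z
    have h1 : HasSum (fun n => u n z) (D z) :=
      hu.hasSum.mapL (ContinuousLinearMap.apply 𝕜 X z)
    convert h1 using 1
    funext n
    simp [u, mul_smul]
  refine ⟨ι • ((2 : 𝕜) • ContinuousLinearMap.id 𝕜 X + D), fun n => 2 + ε n, fun n => ?_,
    fun a b hab => ?_, fun n => ?_, fun n z => ?_⟩
  · have := hε n
    linarith
  · have := hanti hab
    simp only
    linarith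
  · have h1 : D (x n) = ((ε n : ℝ) : 𝕜) • x n := by
      have h2 : HasSum (fun m => (((ε m : ℝ) : 𝕜) * f m (x n)) • x m)
          ((((ε n : ℝ) : 𝕜) * f n (x n)) • x n) := by
        apply hasSum_single
        intro m hm
        rw [hoff m n hm, mul_zero, zero_smul]
      rw [(hD (x n)).unique h2]
      by_cases h0 : x n = 0
      · rw [h0]; simp
      · rw [hon n h0, mul_one]
    simp only [smul_apply, add_apply, ContinuousLinearMap.id_apply, h1]
    rw [← add_smul, smul_smul]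
    push_cast
    rfl
  · have h1 : f n (D z) = ((ε n : ℝ) : 𝕜) * f n z := by
      have h2 : HasSum (fun m => (((ε m : ℝ) : 𝕜) * f m z) * f n (x m)) (f n (D z)) := by
        have := (hD z).mapL (f n)
        simpa using this
      have h3 : HasSum (fun m => (((ε m : ℝ) : 𝕜) * f m z) * f n (x m))
          ((((ε n : ℝ) : 𝕜) * f n z) * f n (x n)) := by
        apply hasSum_single
        intro m hm
        rw [hoff n m hm.symm, mul_zero]
      rw [h2.unique h3]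
      by_cases h0 : x n = 0
      · rw [hz n h0]; simp
      · rw [hon n h0, mul_one]
    simp only [smul_apply, add_apply, ContinuousLinearMap.id_apply, map_add,
      map_smul, smul_eq_mul, h1]
    push_cast
    ring

/-- The convex hull of the orbit of `∑ a n x n` is dense. -/
theorem dense_of_diag {ι : 𝕜} (h4 : ι ^ 4 = 1)
    (hb : ∀ c : 𝕜, c ≠ 0 → ∃ n : ℕ, 0 < RCLike.re (c * ι ^ n))
    {x : ℕ → X} (hspan : ∀ φ : StrongDual 𝕜 X, (∀ n, φ (x n) = 0) → φ = 0)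
    {S : X →L[𝕜] X} {r : ℕ → ℝ} (hr : ∀ n, 2 < r n) (hanti : StrictAnti r)
    (hS : ∀ n, S (x n) = (ι * (r n : 𝕜)) • x n) : IsConvexCyclic S := by
  classical
  have hι : ‖ι‖ = 1 := by
    have h1 : ‖ι‖ ^ 4 = 1 := by rw [← norm_pow, h4, norm_one]
    exact (pow_eq_one_iff_of_nonneg (norm_nonneg _) (by norm_num)).1 h1
  let a : ℕ → ℝ := fun n => (1 / 2) ^ n * (1 + ‖x n‖)⁻¹
  have ha : ∀ n, 0 < a n := fun n => by have := norm_nonneg (x n); positivity
  have hax : ∀ n, a n * ‖x n‖ ≤ (1 / 2) ^ n := by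
    intro n
    simp only [a]
    rw [mul_assoc]
    have h0 := norm_nonneg (x n)
    have h1 : (1 + ‖x n‖)⁻¹ * ‖x n‖ ≤ 1 := by
      rw [inv_mul_le_iff₀ (by positivity)]
      linarith
    calc (1 / 2 : ℝ) ^ n * ((1 + ‖x n‖)⁻¹ * ‖x n‖) ≤ (1 / 2) ^ n * 1 :=
          mul_le_mul_of_nonneg_left h1 (by positivity)
      _ = _ := mul_one _
  have hsum : Summable fun n => ((a n : ℝ) : 𝕜) • x n := by
    apply Summable.of_norm_bounded (g := fun n => (1 / 2 : ℝ) ^ n)
      (summable_geometric_of_lt_one (by norm_num) (by norm_num))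
    intro n
    rw [norm_smul, RCLike.norm_ofReal, abs_of_pos (ha n)]
    exact hax n
  let w : X := ∑' n, ((a n : ℝ) : 𝕜) • x n
  have hw : ∀ m : ℕ, HasSum (fun n => (((a n : ℝ) : 𝕜) * (ι * (r n : 𝕜)) ^ m) • x n)
      (S^[m] w) := by
    intro m
    induction m with
    | zero =>
      have h1 : HasSum (fun n => ((a n : ℝ) : 𝕜) • x n) w := hsum.hasSum
      simpa only [pow_zero, mul_one, Function.iterate_zero, id_eq] using h1
    | succ m ih =>
      rw [Function.iterate_succ_apply']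
      have h1 := ih.mapL S
      convert h1 using 1
      funext n
      rw [S.map_smul, hS, smul_smul, pow_succ]
      ring_nf
  refine ⟨w, ?_⟩
  by_contra hnd
  rw [Dense] at hnd
  push Not at hnd
  obtain ⟨p, hp⟩ := hnd
  obtain ⟨φ, U, hφ, hφp⟩ := RCLike.geometric_hahn_banach_closed_point (𝕜 := 𝕜)
    (convex_convexHull ℝ (Set.range fun n : ℕ => S^[n] w)).closure isClosed_closure hp
  have hbd : ∀ n : ℕ, RCLike.re (φ (S^[n] w)) < U := fun n =>
    hφ _ (subset_closure (subset_convexHull ℝ _ ⟨n, rfl⟩))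
  have hφ0 : φ ≠ 0 := by
    rintro rfl
    have h1 := hbd 0
    simp at h1 hφp
    linarith
  have hex : ∃ n, φ (x n) ≠ 0 := by
    by_contra hcon
    push Not at hcon
    exact hφ0 (hspan φ hcon)
  set j := Nat.find hex with hj
  have hj0 : φ (x j) ≠ 0 := Nat.find_spec hex
  have hjlt : ∀ k < j, φ (x k) = 0 := fun k hk => by
    by_contra h
    exact Nat.find_min hex hk h
  -- the series for `φ (S^m w)`
  have hφw : ∀ m : ℕ, HasSum (fun n => (((a n : ℝ) : 𝕜) * (ι * (r n : 𝕜)) ^ m) * φ (x n))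
      (φ (S^[m] w)) := by
    intro m
    have := (hw m).mapL φ
    simpa using this
  -- the tail
  set B : ℝ := ∑' n, (1 / 2 : ℝ) ^ n * ‖φ‖ with hB
  have hBsum : Summable fun n : ℕ => (1 / 2 : ℝ) ^ n * ‖φ‖ :=
    (summable_geometric_of_lt_one (by norm_num) (by norm_num)).mul_right _
  have htail : ∀ m : ℕ, ‖φ (S^[m] w) - (((a j : ℝ) : 𝕜) * (ι * (r j : 𝕜)) ^ m) * φ (x j)‖ ≤
      (r (j + 1)) ^ m * B := by
    intro m
    have h1 := (hφw m).sub (hasSum_ite_eq j ((((a j : ℝ) : 𝕜) * (ι * (r j : 𝕜)) ^ m) * φ (x j)))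
    rw [← h1.tsum_eq]
    refine tsum_of_norm_bounded (g := fun n => (r (j + 1)) ^ m * ((1 / 2 : ℝ) ^ n * ‖φ‖))
      (hBsum.hasSum.mul_left _) fun n => ?_
    have hnn : 0 ≤ (r (j + 1)) ^ m * ((1 / 2 : ℝ) ^ n * ‖φ‖) := by
      have := hr (j + 1)
      positivity
    rcases lt_trichotomy n j with h | h | h
    · rw [if_neg h.ne, hjlt n h]
      simpa using hnn
    · rw [if_pos h]
      rw [show x n = x j by rw [h], show a n = a j by rw [h], show r n = r j by rw [h], sub_self,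
        norm_zero]
      exact hnn
    · rw [if_neg h.ne', sub_zero, norm_mul, norm_mul, norm_pow, norm_mul, hι, one_mul,
        RCLike.norm_ofReal, RCLike.norm_ofReal, abs_of_pos (ha n)]
      have hrn := hr n
      rw [abs_of_pos (by linarith)]
      have h2 : ‖φ (x n)‖ ≤ ‖φ‖ * ‖x n‖ := φ.le_opNorm _
      have h3 : r n ≤ r (j + 1) := hanti.antitone h
      have h4 : (r n) ^ m ≤ (r (j + 1)) ^ m := pow_le_pow_left₀ (by linarith) h3 m
      calc a n * r n ^ m * ‖φ (x n)‖ ≤ a n * r n ^ m * (‖φ‖ * ‖x n‖) := by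
            apply mul_le_mul_of_nonneg_left h2
            have := ha n
            positivity
        _ = r n ^ m * ((a n * ‖x n‖) * ‖φ‖) := by ring
        _ ≤ r n ^ m * ((1 / 2) ^ n * ‖φ‖) := by
            apply mul_le_mul_of_nonneg_left _ (by positivity)
            exact mul_le_mul_of_nonneg_right (hax n) (norm_nonneg _)
        _ ≤ _ := mul_le_mul_of_nonneg_right h4 (by positivity)
  -- choice of the residue class
  obtain ⟨n0, hn0⟩ := hb (((a j : ℝ) : 𝕜) * φ (x j)) (mul_ne_zero (by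
    rw [Ne, RCLike.ofReal_eq_zero]; exact (ha j).ne') hj0)
  set δ := RCLike.re ((((a j : ℝ) : 𝕜) * φ (x j)) * ι ^ n0) with hδ
  have hlow : ∀ m : ℕ, (r j) ^ (4 * m + n0) * δ - (r (j + 1)) ^ (4 * m + n0) * B < U := by
    intro m
    have h1 := htail (4 * m + n0)
    have h2 := hbd (4 * m + n0)
    have h3 : (((a j : ℝ) : 𝕜) * (ι * (r j : 𝕜)) ^ (4 * m + n0)) * φ (x j) =
        (((r j) ^ (4 * m + n0) : ℝ) : 𝕜) * ((((a j : ℝ) : 𝕜) * φ (x j)) * ι ^ n0) := by
      rw [mul_pow, pow_add ι, pow_mul, h4, one_pow, one_mul]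
      push_cast
      ring
    have h4 : RCLike.re ((((a j : ℝ) : 𝕜) * (ι * (r j : 𝕜)) ^ (4 * m + n0)) * φ (x j)) =
        (r j) ^ (4 * m + n0) * δ := by
      rw [h3, RCLike.re_ofReal_mul]
    have h5 := RCLike.abs_re_le_norm (φ (S^[4 * m + n0] w) -
      (((a j : ℝ) : 𝕜) * (ι * (r j : 𝕜)) ^ (4 * m + n0)) * φ (x j))
    rw [map_sub, h4] at h5
    have h6 := neg_abs_le (RCLike.re (φ (S^[4 * m + n0] w)) - (r j) ^ (4 * m + n0) * δ)
    linarith
  have hrj : 2 < r j := hr j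
  have hrj1 : 2 < r (j + 1) := hr (j + 1)
  have hlt : r (j + 1) < r j := hanti (Nat.lt_succ_self j)
  have t0 : Tendsto (fun m : ℕ => 4 * m + n0) atTop atTop :=
    tendsto_atTop_mono (fun m => (by simp only [id_eq]; omega : id m ≤ 4 * m + n0)) tendsto_id
  have t1 : Tendsto (fun m : ℕ => (r j) ^ (4 * m + n0)) atTop atTop :=
    (tendsto_pow_atTop_atTop_of_one_lt (by linarith)).comp t0
  have t2 : Tendsto (fun m : ℕ => δ - (r (j + 1) / r j) ^ (4 * m + n0) * B) atTop (𝓝 (δ - 0 * B)) :=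
    tendsto_const_nhds.sub (((tendsto_pow_atTop_nhds_zero_of_lt_one (by positivity)
      ((div_lt_one (by linarith)).2 hlt)).comp t0).mul_const B)
  have t3 := t1.atTop_mul_pos (by simpa using hn0) t2
  obtain ⟨m, hm⟩ := (t3.eventually_ge_atTop U).exists
  have h1 := hlow m
  have h2 : (r j) ^ (4 * m + n0) * (δ - (r (j + 1) / r j) ^ (4 * m + n0) * B) =
      (r j) ^ (4 * m + n0) * δ - (r (j + 1)) ^ (4 * m + n0) * B := by
    have : (r j) ^ (4 * m + n0) ≠ 0 := by positivity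
    rw [div_pow]
    field_simp
  rw [h2] at hm
  linarith

/-- The square is not convex-cyclic. -/
theorem not_sq {ι : 𝕜} (hc : ∀ s : 𝕜, ∃ w : 𝕜, w ≠ 0 ∧ ∀ (n : ℕ) (r : ℝ),
      0 ≤ RCLike.re (w * ((ι * (r : 𝕜)) ^ (2 * n) * s)))
    {S : X →L[𝕜] X} {x : X} {f : StrongDual 𝕜 X} {r : ℝ} (hfx : f x = 1)
    (hf : ∀ z, f (S z) = ι * (r : 𝕜) * f z) : ¬ IsConvexCyclic (S ∘ S) := by
  rintro ⟨y, hy⟩
  obtain ⟨w, hw0, hw⟩ := hc (f y)
  have hpow : ∀ n : ℕ, f ((S ∘ S)^[n] y) = (ι * (r : 𝕜)) ^ (2 * n) * f y := by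
    intro n
    induction n with
    | zero => simp
    | succ n ih =>
      rw [Function.iterate_succ_apply']
      simp only [Function.comp_apply]
      rw [hf, hf]
      have : (S ∘ S)^[n] y = (⇑S ∘ ⇑S)^[n] y := rfl
      rw [ih, show 2 * (n + 1) = 2 * n + 1 + 1 by ring, pow_succ, pow_succ]
      ring
  have hsub : convexHull ℝ (Set.range fun n : ℕ => (S ∘ S)^[n] y) ⊆
      {z | 0 ≤ RCLike.re (w * f z)} := by
    apply convexHull_min
    · rintro _ ⟨n, rfl⟩
      change 0 ≤ RCLike.re (w * f ((S ∘ S)^[n] y))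
      rw [hpow]
      exact hw n r
    · intro z hz z' hz' s t hs ht _
      change 0 ≤ RCLike.re (w * f (s • z + t • z'))
      change 0 ≤ RCLike.re (w * f z) at hz
      change 0 ≤ RCLike.re (w * f z') at hz'
      have h1 : s • z = ((s : 𝕜)) • z := by rw [← RCLike.real_smul_eq_coe_smul (K := 𝕜)]
      have h2 : t • z' = ((t : 𝕜)) • z' := by rw [← RCLike.real_smul_eq_coe_smul (K := 𝕜)]
      rw [h1, h2, map_add, f.map_smul, f.map_smul, smul_eq_mul, smul_eq_mul]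
      have h3 : w * ((s : 𝕜) * f z + (t : 𝕜) * f z') = (s : 𝕜) * (w * f z) + (t : 𝕜) * (w * f z') := by
        ring
      rw [h3, map_add, RCLike.re_ofReal_mul, RCLike.re_ofReal_mul]
      positivity
  have hcl : IsClosed {z : X | 0 ≤ RCLike.re (w * f z)} :=
    isClosed_le continuous_const (RCLike.continuous_re.comp (continuous_const.mul f.continuous))
  have h1 : (-(starRingEnd 𝕜 w)) • x ∈ {z : X | 0 ≤ RCLike.re (w * f z)} :=
    hcl.closure_subset_iff.2 hsub (hy _)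
  change 0 ≤ RCLike.re (w * f ((-(starRingEnd 𝕜 w)) • x)) at h1
  rw [f.map_smul, hfx, smul_eq_mul, mul_one, mul_neg, RCLike.mul_conj] at h1
  have h2 : 0 < ‖w‖ := norm_pos_iff.2 hw0
  rw [map_neg] at h1
  have h3 : RCLike.re (((‖w‖ : ℝ) : 𝕜) ^ 2) = ‖w‖ ^ 2 := by
    rw [← RCLike.ofReal_pow, RCLike.ofReal_re]
  rw [h3] at h1
  nlinarith

/-- The general statement. -/
theorem main [TopologicalSpace.SeparableSpace X] [Nontrivial X] {ι : 𝕜} (h4 : ι ^ 4 = 1)
    (hb : ∀ c : 𝕜, c ≠ 0 → ∃ n : ℕ, 0 < RCLike.re (c * ι ^ n))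
    (hc : ∀ s : 𝕜, ∃ w : 𝕜, w ≠ 0 ∧ ∀ (n : ℕ) (r : ℝ),
      0 ≤ RCLike.re (w * ((ι * (r : 𝕜)) ^ (2 * n) * s))) :
    ∃ S : X →L[𝕜] X, IsConvexCyclic S ∧ ¬ IsConvexCyclic (S ∘ S) := by
  obtain ⟨x, f, hoff, hon, hz, hspan⟩ := exists_sys (𝕜 := 𝕜) (X := X)
  obtain ⟨S, r, hr, hanti, hS, hf⟩ := exists_operator ι x f hoff hon hz
  refine ⟨S, dense_of_diag h4 hb hspan hr hanti hS, ?_⟩
  obtain ⟨m, hm⟩ : ∃ m, x m ≠ 0 := by
    by_contra hcon
    push Not at hcon
    obtain ⟨v, hv⟩ := exists_ne (0 : X)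
    obtain ⟨φ, hφ⟩ := SeparatingDual.exists_ne_zero (R := 𝕜) hv
    have := hspan φ (fun n => by rw [hcon n, map_zero])
    rw [this] at hφ
    exact hφ rfl
  exact not_sq hc (hon m hm) (hf m)

end Diag

end Q41.CC
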